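import Mathlib
import Pool.Agent.Y591.MM.Main

set_option autoImplicit false

namespace Pool.Agent.Results.MP_8f56b8_lc.SharpThreshold

open Pool.Agent.Results.MP_8f56b8_lc.ExponentialLowerBound (rk QueryAlg)
open Pool.Agent.Y591.MM
open scoped ENNReal

/-- **Matroid median with a rank oracle: for every fixed number `k ≥ 3` of given sets the factor
`2 - 2 / k` is the exact limit of efficient approximation, also for randomized algorithms.**

The cost of `H` is the sum of the distances `d(F_i, H)`, where `d(X, Y) = 2 r(X ∪ Y) - r(X) - r(Y)`.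

1. The cost differs from the objective `Φ` by the constant `∑ r(F_i)`, so exact solutions of the
   matroid median problem are the sets `H` with `Approx M F 1 H`.
2. Upper bound: one of the given sets has cost at most `2 - 2 / k` times the minimum.
3. Lower bound: for `k ≥ 3` and `1 ≤ ρ < 2 - 2 / k` there is a constant `C > 0` such that for all
   `t ≥ 1` there are `k` subsets `F` and a matroid `M₀` on a ground set with `n = C t` elements for
   which the following holds.  Every randomized rank-oracle procedure (even one designed for these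
   sets) that for every matroid on this ground set outputs with probability at least `p` a set of
   cost at most `ρ` times the minimum makes an expected number of at least `p 2 ^ t - k`, that is
   `p 2 ^ (n / C) - k`, oracle calls on `M₀`.
4. Negative answer to Q1, even for any fixed `k ≥ 3` (for instance `k = 3`) and any fixed factor
   `ρ < 2 - 2 / k` (for instance `ρ = 1`): no randomized algorithm that makes an expected number of
   rank-oracle calls polynomial in `n + k` has at least an inverse polynomial probability of
   finding such a solution. -/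
theorem result :
    (∀ (n k : ℕ) (M : Matroid (Fin n)) (F : Fin k → Finset (Fin n)) (H : Finset (Fin n)),
      phi M F H = cost M F H + ∑ i, (rk M (F i) : ℤ)) ∧
    (∀ (n k : ℕ) (M : Matroid (Fin n)) (F : Fin k → Finset (Fin n)), 0 < k →
      ∃ i, Approx M F (2 - 2 / k) (F i)) ∧
    (∀ k : ℕ, 3 ≤ k → ∀ ρ : ℝ, 1 ≤ ρ → ρ < 2 - 2 / k →
      ∃ C : ℕ, 0 < C ∧ ∀ t : ℕ, 0 < t →
        ∃ (F : Fin k → Finset (Fin (C * t))) (M₀ : Matroid (Fin (C * t))), M₀.E = Set.univ ∧
          ∀ (D : RandProc (C * t)) (p : ℝ≥0∞),
            (∀ M : Matroid (Fin (C * t)), M.E = Set.univ → p ≤ probability D M (Approx M F ρ)) →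
            p * 2 ^ t ≤ expectedCalls D M₀ + k) ∧
    (∀ k : ℕ, 3 ≤ k → ∀ ρ : ℝ, 1 ≤ ρ → ρ < 2 - 2 / k →
      ¬ ∃ (A : RandAlg) (c : ℕ), Efficient k ρ A c) :=
  ⟨fun _ _ M F H => phi_eq M F H, fun _ _ M F hk => upper_bound hk M F,
    fun k hk ρ hρ1 hρ => lower_bound k hk ρ hρ1 hρ,
    fun k hk ρ hρ1 hρ ⟨A, c, h⟩ => no_efficient k hk ρ hρ1 hρ A c h⟩

end Pool.Agent.Results.MP_8f56b8_lc.SharpThreshold
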